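import Mathlib
import Pool.Agent.L0h40.WT.Wilson

/-!
Wilson's theorem for Fermat numbers at every dyadic level.

Wilson's theorem decides the primality of `F = 2 ^ N + 1`, `N = 2 ^ m`, from the full factorial
`(F - 1)!`; Gauss's theorem on `C((p-1)/2, (p-1)/4)` gives the same with `((F - 1) / 4)!`.
Here the factorials `(a * (F - 1) / 2 ^ k)!`, `a` odd, are evaluated modulo `F`, up to a
`2 ^ k`-th root of unity, for every level `k` up to `m + 2`, in closed form; the value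
characterizes the primality of `F`.
-/

namespace Pool.Agent.Results.MP_37e5fa_nt.DyadicWilson

open Finset Pool.Agent.L0h40.WT

theorem converse {m : ℕ} (hm : 4 ≤ m) {k : ℕ} (hkm : k ≤ m + 2) {a : ℕ}
    (ha : Odd a) (X : ZMod (2 ^ 2 ^ m + 1)) (n : ℕ)
    (h : (((a * 2 ^ (2 ^ m - k)).factorial : ℕ) : ZMod (2 ^ 2 ^ m + 1)) ^ 2 ^ k * X =
      -2 ^ n) : (2 ^ 2 ^ m + 1).Prime := by
  by_contra hc
  obtain ⟨q, hqd⟩ : ∃ q, q = (2 ^ 2 ^ m + 1).minFac := ⟨_, rfl⟩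
  have h2 : 2 ≤ 2 ^ 2 ^ m + 1 := by
    have : 1 ≤ 2 ^ 2 ^ m := Nat.one_le_two_pow
    omega
  have hq : q.Prime := hqd ▸ Nat.minFac_prime (by omega)
  have hqF : q ∣ 2 ^ 2 ^ m + 1 := hqd ▸ Nat.minFac_dvd _
  have hq2 : q ^ 2 ≤ 2 ^ 2 ^ m + 1 := hqd ▸ Nat.minFac_sq_le_self (by omega) hc
  have hmm : 2 ^ m = 2 ^ (m - 1) + 2 ^ (m - 1) := by
    rw [← two_mul, ← pow_succ']; congr 1; omega
  have hq3 : q ≤ 2 ^ 2 ^ (m - 1) := by
    by_contra hlt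
    have h3 : 2 ^ 2 ^ (m - 1) + 1 ≤ q := by omega
    have h4 : (2 ^ 2 ^ (m - 1) + 1) ^ 2 ≤ q ^ 2 := Nat.pow_le_pow_left h3 2
    have h5 : 2 ^ 2 ^ m = 2 ^ 2 ^ (m - 1) * 2 ^ 2 ^ (m - 1) := by rw [hmm, pow_add]
    rw [h5] at hq2
    have h6 : 1 ≤ 2 ^ 2 ^ (m - 1) := Nat.one_le_two_pow
    nlinarith
  have hk1 : 2 ^ (m - 1) ≤ 2 ^ m - k := by
    have h3 : m + 2 ≤ 2 ^ (m - 1) := by
      obtain ⟨c, rfl⟩ : ∃ c, m = c + 4 := ⟨m - 4, by omega⟩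
      have e1 : c + 4 - 1 = c + 3 := rfl
      rw [e1]
      clear * -
      induction c with
      | zero => norm_num
      | succ c ih =>
        have : 2 ^ (c + 1 + 3) = 2 * 2 ^ (c + 3) := by rw [← pow_succ']
        rw [this]; omega
    omega
  have hq4 : q ≤ a * 2 ^ (2 ^ m - k) := by
    calc q ≤ 2 ^ 2 ^ (m - 1) := hq3
      _ ≤ 2 ^ (2 ^ m - k) := Nat.pow_le_pow_right (by norm_num) hk1
      _ ≤ a * 2 ^ (2 ^ m - k) := Nat.le_mul_of_pos_left _ ha.pos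
  have hq5 : q ∣ (a * 2 ^ (2 ^ m - k)).factorial := (hq.dvd_factorial).2 hq4
  have : Fact q.Prime := ⟨hq⟩
  have h6 := congrArg (ZMod.castHom hqF (ZMod q)) h
  rw [map_mul, map_pow, map_natCast, (ZMod.natCast_eq_zero_iff _ _).2 hq5,
    zero_pow (by positivity), zero_mul, map_neg, map_pow, map_ofNat] at h6
  have h7 : (2 : ZMod q) ^ n = 0 := by linear_combination h6
  have h8 : (2 : ZMod q) = 0 := eq_zero_of_pow_eq_zero h7
  have h9 : q ∣ 2 := by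
    have : ((2 : ℕ) : ZMod q) = 0 := by exact_mod_cast h8
    exact (ZMod.natCast_eq_zero_iff _ _).1 this
  have h10 : q = 2 := (Nat.prime_dvd_prime_iff_eq hq Nat.prime_two).1 h9
  rw [h10] at hqF
  have h11 : 2 ∣ 2 ^ 2 ^ m := dvd_pow_self 2 (by positivity)
  have h12 := (Nat.dvd_add_right h11).1 hqF
  omega

/-- For `m ≥ 2`, every level `1 ≤ k ≤ m + 2` and every odd `a < 2 ^ k`, the Fermat number
`F = 2 ^ 2 ^ m + 1` is prime if and only if, modulo `F`,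
`((a (F - 1) / 2 ^ k)!) ^ (2 ^ k)` times the product over `1 ≤ j < 2 ^ (k - 1)` of
`(1 - (χ₈(2j+1) 2 ^ j) ^ (2 ^ (m + 2 - k))) ^ e(j)` equals `- 2 ^ (a (k - 1))`, where `e(j)` is
the residue of `a / (2 j + 1)` modulo `2 ^ k` in `[0, 2 ^ k)` and `χ₈(2j+1) = (2 / (2j+1))`. -/
theorem result (m : ℕ) (hm : 2 ≤ m) (k : ℕ) (hk : 1 ≤ k) (hkm : k ≤ m + 2)
    (a : ℕ) (ha : Odd a) (ha2 : a < 2 ^ k) :
    (2 ^ 2 ^ m + 1).Prime ↔
      (((a * 2 ^ (2 ^ m - k)).factorial : ℕ) : ZMod (2 ^ 2 ^ m + 1)) ^ 2 ^ k *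
        ∏ j ∈ Finset.Ico 1 (2 ^ (k - 1)),
          (1 - (((ZMod.χ₈ ((2 * j + 1 : ℕ) : ZMod 8) * 2 ^ j) ^ 2 ^ (m + 2 - k) : ℤ) :
            ZMod (2 ^ 2 ^ m + 1))) ^
            ((a : ZMod (2 ^ k)) * ((2 * j + 1 : ℕ) : ZMod (2 ^ k))⁻¹).val =
        -2 ^ (a * (k - 1)) := by
  constructor
  · intro h
    have : Fact (2 ^ 2 ^ m + 1).Prime := ⟨h⟩
    exact wilson (p := 2 ^ 2 ^ m + 1) hm rfl k hk hkm a ha ha2
  · intro h
    rcases Nat.lt_or_ge m 4 with h1 | h1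
    · interval_cases m <;> norm_num
    · exact converse h1 hkm ha _ _ h

end Pool.Agent.Results.MP_37e5fa_nt.DyadicWilson
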