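import Mathlib
import Pool.Agent.L0h40.GS.Count
import Pool.Agent.L0h40.GS.Comp

/-!
A Fermat number `F` is prime if and only if the curve `x ^ (2 ^ k) + y ^ (2 ^ k) = 1` has the right
number of points modulo `F`; the number is given explicitly.
-/

namespace Pool.Agent.Results.MP_37e5fa_nt.FermatCurve

open Finset NumberField Pool.Agent.L0h40.WT Pool.Agent.L0h40.GS

/-- divisibility of integers in a ring of integers -/
theorem int_dvd {K : Type} [Field K] [NumberField K] {a b : ℤ}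
    (h : (a : 𝓞 K) ∣ (b : 𝓞 K)) : a ∣ b := by
  obtain ⟨c, hc⟩ := h
  have h1 := congrArg (Algebra.norm ℤ) hc
  rw [map_mul] at h1
  have h2 : ∀ x : ℤ, Algebra.norm ℤ (x : 𝓞 K) = x ^ Module.finrank ℤ (𝓞 K) := by
    intro x
    have := Algebra.norm_algebraMap (S := 𝓞 K) x
    simpa using this
  rw [h2, h2] at h1
  have h3 : a ^ Module.finrank ℤ (𝓞 K) ∣ b ^ Module.finrank ℤ (𝓞 K) := ⟨_, h1⟩
  exact (Int.pow_dvd_pow_iff Module.finrank_pos.ne').1 h3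

/-- For `k ≥ 2`, `k + 2 ≤ 2 ^ (m + 1 - k)` and a primitive `2 ^ k`-th root of unity `ζ`, the Fermat
number `F = 2 ^ 2 ^ m + 1` is prime if and only if the number of pairs `(x, y)` modulo `F` with
`x ^ (2 ^ k) + y ^ (2 ^ k) = 1` is `F - 1 + 2 ^ (k + 1)` minus the sum over all `0 ≤ a, b < 2 ^ k` of
the products of the numbers `1 - 2 ^ 2 ^ (m + 1 - k) ζ ^ (-v)` over the odd residues `v` modulo
`2 ^ k` for which the least residues of `a / v` and `b / v` have a sum greater than `2 ^ k`. -/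
theorem result (m k : ℕ) (hk : 2 ≤ k) (hkm : k + 2 ≤ 2 ^ (m + 1 - k))
    (ζ : ℂ) (hζ : IsPrimitiveRoot ζ (2 ^ k)) :
    (2 ^ 2 ^ m + 1).Prime ↔
      (Nat.card {z : ZMod (2 ^ 2 ^ m + 1) × ZMod (2 ^ 2 ^ m + 1) //
        z.1 ^ 2 ^ k + z.2 ^ 2 ^ k = 1} : ℂ) =
        2 ^ 2 ^ m + 2 ^ (k + 1) - ∑ a ∈ range (2 ^ k), ∑ b ∈ range (2 ^ k),
          ∏ v ∈ univ.filter (fun v : (ZMod (2 ^ k))ˣ =>
            2 ^ k < ((a : ZMod (2 ^ k)) * ((v⁻¹ : (ZMod (2 ^ k))ˣ) : ZMod (2 ^ k))).val +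
              ((b : ZMod (2 ^ k)) * ((v⁻¹ : (ZMod (2 ^ k))ˣ) : ZMod (2 ^ k))).val),
            (1 - 2 ^ 2 ^ (m + 1 - k) * ζ ^ ((-v : (ZMod (2 ^ k))ˣ) : ZMod (2 ^ k)).val) := by
  classical
  have hk1 : k ≤ m + 1 := by
    by_contra h
    have h2 : m + 1 - k = 0 := by omega
    rw [h2] at hkm
    omega
  have hm : 2 ≤ m := by
    by_contra h
    have h3 : m + 1 - k = 0 := by omega
    rw [h3] at hkm
    omega
  have h0 : NeZero (2 ^ k) := ⟨by positivity⟩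
  obtain ⟨K, _, _, _⟩ := exists_field k
  have hz := IsCyclotomicExtension.zeta_spec (2 ^ k) ℚ K
  have hζK := hz.toInteger_isPrimitiveRoot
  obtain ⟨ζK, hζd⟩ : ∃ ζK, ζK = hz.toInteger := ⟨_, rfl⟩
  rw [← hζd] at hζK
  have hhalf : ζ ^ 2 ^ (k - 1) = -1 := by
    have h2 : (ζ ^ 2 ^ (k - 1)) ^ 2 = 1 := by
      rw [← pow_mul, ← pow_succ]
      have : k - 1 + 1 = k := by omega
      rw [this, hζ.pow_eq_one]
    have h3 : ζ ^ 2 ^ (k - 1) ≠ 1 := by
      intro h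
      have := (hζ.pow_eq_one_iff_dvd _).1 h
      have h5 := Nat.le_of_dvd (by positivity) this
      have h6 : 2 ^ (k - 1) < 2 ^ k := Nat.pow_lt_pow_right (by norm_num) (by omega)
      omega
    rcases sq_eq_one_iff.1 h2 with h | h
    · exact absurd h h3
    · exact h
  obtain ⟨τ, hτ⟩ := exists_hom (R := ℂ) (by omega : 1 ≤ k) hζK ζ hhalf
  have hτi : Function.Injective τ := by
    rw [RingHom.injective_iff_ker_eq_bot]
    apply Ideal.eq_bot_of_comap_eq_bot (R := ℤ) (S := 𝓞 K)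
    rw [eq_bot_iff]
    intro x hx
    rw [Ideal.mem_comap, RingHom.mem_ker] at hx
    rw [Ideal.mem_bot]
    have h1 : τ (algebraMap ℤ (𝓞 K) x) = (x : ℂ) := by simp
    rw [h1] at hx
    exact_mod_cast hx
  have hR : (2 ^ 2 ^ m + 2 ^ (k + 1) - ∑ a ∈ range (2 ^ k), ∑ b ∈ range (2 ^ k),
          ∏ v ∈ univ.filter (fun v : (ZMod (2 ^ k))ˣ =>
            2 ^ k < ((a : ZMod (2 ^ k)) * ((v⁻¹ : (ZMod (2 ^ k))ˣ) : ZMod (2 ^ k))).val +
              ((b : ZMod (2 ^ k)) * ((v⁻¹ : (ZMod (2 ^ k))ˣ) : ZMod (2 ^ k))).val),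
            (1 - 2 ^ 2 ^ (m + 1 - k) * ζ ^ ((-v : (ZMod (2 ^ k))ˣ) : ZMod (2 ^ k)).val) : ℂ) =
      τ (2 ^ 2 ^ m + 2 ^ (k + 1) -
        ∑ a ∈ range (2 ^ k), ∑ b ∈ range (2 ^ k), PP k (2 ^ 2 ^ (m + 1 - k)) ζK a b) := by
    rw [map_sub, map_add, map_pow, map_pow, map_ofNat, map_sum]
    congr 1
    refine Finset.sum_congr rfl fun a _ => ?_
    rw [map_sum]
    refine Finset.sum_congr rfl fun b _ => ?_
    unfold PP WW
    rw [map_prod]
    refine Finset.prod_congr (by congr) fun v _ => ?_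
    rw [map_sub, map_one, map_mul, map_pow, map_pow, map_ofNat, hτ]
  rw [hR]
  constructor
  · intro hF
    have : Fact (2 ^ 2 ^ m + 1).Prime := ⟨hF⟩
    have D : Dat m k (2 ^ 2 ^ m + 1) := ⟨hk, hk1, hm, rfl⟩
    have h1 := count_exact D (by omega) hζK
    rw [← h1, map_natCast, Nat.card_eq_fintype_card, Fintype.card_subtype]
  · intro h
    by_contra hF
    obtain ⟨a, b, ha, hb, hab, hn⟩ := split (by omega : 1 ≤ m) hF
    obtain ⟨S, hS⟩ : ∃ S, S = Nat.card {z : ZMod (2 ^ 2 ^ m + 1) × ZMod (2 ^ 2 ^ m + 1) //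
        z.1 ^ 2 ^ k + z.2 ^ 2 ^ k = 1} := ⟨_, rfl⟩
    rw [← hS] at h
    have h1 : (S : 𝓞 K) = 2 ^ 2 ^ m + 2 ^ (k + 1) -
        ∑ a ∈ range (2 ^ k), ∑ b ∈ range (2 ^ k), PP k (2 ^ 2 ^ (m + 1 - k)) ζK a b := by
      apply hτi
      rw [map_natCast, h]
    -- the congruence
    have h2 : ((2 ^ 2 ^ (m + 1 - k) : ℤ) : 𝓞 K) ∣
        (((S : ℤ) - 2 ^ (k + 1) + 2 ^ k * 2 ^ k : ℤ) : 𝓞 K) := by
      have h3 : (((S : ℤ) - 2 ^ (k + 1) + 2 ^ k * 2 ^ k : ℤ) : 𝓞 K) =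
          2 ^ 2 ^ m - ∑ a ∈ range (2 ^ k), ∑ b ∈ range (2 ^ k),
            (PP k (2 ^ 2 ^ (m + 1 - k)) ζK a b - 1) := by
        have h4 : ∑ a ∈ range (2 ^ k), ∑ b ∈ range (2 ^ k),
            (PP k (2 ^ 2 ^ (m + 1 - k)) ζK a b - 1) =
            ∑ a ∈ range (2 ^ k), ∑ b ∈ range (2 ^ k),
            PP k (2 ^ 2 ^ (m + 1 - k)) ζK a b - 2 ^ k * 2 ^ k := by
          rw [Finset.sum_congr rfl (fun a _ => Finset.sum_sub_distrib _ _),
            Finset.sum_sub_distrib]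
          congr 1
          simp
        rw [h4]
        push_cast
        rw [h1]
        ring
      rw [h3]
      push_cast
      refine dvd_sub ?_ (Finset.dvd_sum fun a _ => Finset.dvd_sum fun b _ => ?_)
      · apply pow_dvd_pow
        exact Nat.pow_le_pow_right (by norm_num) (by omega)
      · exact PP_congr _ _ _ _
    have h3 := int_dvd h2
    have h4 : (2 : ℤ) ^ (k + 2) ∣ (S : ℤ) - 2 ^ (k + 1) + 2 ^ k * 2 ^ k :=
      dvd_trans (pow_dvd_pow 2 hkm) h3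
    -- the divisibility
    have hodd : Odd (2 ^ 2 ^ m + 1) :=
      Even.add_one (Nat.even_pow.2 ⟨even_two, by positivity⟩)
    have hth : ∀ c : ℕ, c ∣ 2 ^ 2 ^ m + 1 →
        ((2 : ZMod c) ^ 2 ^ (m + 1 - k)) ^ 2 ^ (k - 1) = -1 := by
      intro c hc
      have hpow : 2 ^ (m + 1 - k) * 2 ^ (k - 1) = 2 ^ m := by
        rw [← pow_add]; congr 1; omega
      rw [← pow_mul, hpow]
      have h6 : ((2 ^ 2 ^ m + 1 : ℕ) : ZMod c) = 0 := (ZMod.natCast_eq_zero_iff _ _).2 hc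
      push_cast at h6
      linear_combination h6
    have hoab : Odd (a * b) := hn ▸ hodd
    have hoa : Odd a := (Nat.odd_mul.1 hoab).1
    have hob : Odd b := (Nat.odd_mul.1 hoab).2
    have d1 := dvd_points hoa ha (by omega : 1 ≤ k) (hth a ⟨b, hn⟩)
    have d2 := dvd_points hob hb (by omega : 1 ≤ k) (hth b ⟨a, by rw [hn, mul_comm]⟩)
    have h5 : 2 ^ (k + 1) * 2 ^ (k + 1) ∣ S := by
      rw [hS, hn, points_mul hab]
      exact mul_dvd_mul d1 d2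
    have h6 : (2 : ℤ) ^ (k + 2) ∣ (S : ℤ) := by
      have h7 : 2 ^ (k + 2) ∣ S := by
        refine dvd_trans ?_ h5
        rw [← pow_add]
        exact pow_dvd_pow 2 (by omega)
      exact_mod_cast h7
    have h7 : (2 : ℤ) ^ (k + 2) ∣ 2 ^ k * 2 ^ k := by
      rw [← pow_add]
      exact pow_dvd_pow 2 (by omega)
    have h8 : (2 : ℤ) ^ (k + 2) ∣ 2 ^ (k + 1) := by
      have h9 := dvd_sub (dvd_add h6 h7) h4
      have h10 : (S : ℤ) + 2 ^ k * 2 ^ k - ((S : ℤ) - 2 ^ (k + 1) + 2 ^ k * 2 ^ k) =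
          2 ^ (k + 1) := by ring
      rwa [h10] at h9
    have h9 := Int.le_of_dvd (by positivity) h8
    have h10 : (2 : ℤ) ^ (k + 2) = 2 * 2 ^ (k + 1) := by rw [← pow_succ']
    rw [h10] at h9
    have h11 : (0 : ℤ) < 2 ^ (k + 1) := by positivity
    linarith

end Pool.Agent.Results.MP_37e5fa_nt.FermatCurve
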