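import Mathlib
import Pool.Agent.L0h40.GS.Periods

/-!
The first steps of Gauss's construction of the regular `F`-gon, `F` a Fermat prime, in closed form.

Let `F = 2 ^ 2 ^ m + 1` be prime.  The Gauss periods of degree `2 ^ k` (the sums of the `F`-th roots
of unity over the cosets of the subgroup of index `2 ^ k`) are what one reaches after `k` of the
`2 ^ m` quadratic steps.  For all `k ≥ 2` with `k ≤ 2 ^ (m + 1 - k)` they are given here explicitly: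
they depend on `m` only through the number `2 ^ 2 ^ (m + 1 - k)`.
-/

namespace Pool.Agent.Results.MP_37e5fa_nt.GaussPeriods

open Finset Pool.Agent.L0h40.GS

/-- Let `F = 2 ^ 2 ^ m + 1` be prime, `k ≥ 2`, `k ≤ 2 ^ (m + 1 - k)`, `ζ` a primitive `2 ^ k`-th root
of unity and `ψ` a nontrivial additive character modulo `F`.  There are `2 ^ k`-th roots `r_v` of
the numbers `1 - 2 ^ 2 ^ (m + 1 - k) ζ ^ (-v)`, `v` odd modulo `2 ^ k`, such that for all `i` the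
Gauss period, the sum of `ψ x` over the `x` with `x ^ ((F - 1) / 2 ^ k) = (2 ^ 2 ^ (m + 1 - k)) ^ i`,
is `- 2 ^ (-k)` times the sum over `0 ≤ a < 2 ^ k` of `ζ ^ (i a)` times the product of the
`r_v ^ ⟨a / v⟩`, where `⟨a / v⟩` is the residue of `a / v` modulo `2 ^ k` in `[0, 2 ^ k)`. -/
theorem result (m k : ℕ) (hk : 2 ≤ k) (hkm : k ≤ 2 ^ (m + 1 - k))
    (hF : (2 ^ 2 ^ m + 1).Prime)
    (ζ : ℂ) (hζ : IsPrimitiveRoot ζ (2 ^ k))
    (ψ : AddChar (ZMod (2 ^ 2 ^ m + 1)) ℂ) (hψ : ψ ≠ 1) :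
    ∃ r : (ZMod (2 ^ k))ˣ → ℂ,
      (∀ v, r v ^ 2 ^ k =
        1 - 2 ^ 2 ^ (m + 1 - k) * ζ ^ ((-v : (ZMod (2 ^ k))ˣ) : ZMod (2 ^ k)).val) ∧
      ∀ i : ℕ,
        (2 : ℂ) ^ k * ∑ x ∈ univ.filter (fun x : ZMod (2 ^ 2 ^ m + 1) =>
          x ^ 2 ^ (2 ^ m - k) = (2 ^ 2 ^ (m + 1 - k)) ^ i), ψ x =
        - ∑ a ∈ range (2 ^ k), ζ ^ (i * a) * ∏ v : (ZMod (2 ^ k))ˣ,
          r v ^ ((a : ZMod (2 ^ k)) * ((v⁻¹ : (ZMod (2 ^ k))ˣ) : ZMod (2 ^ k))).val := by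
  have : Fact (2 ^ 2 ^ m + 1).Prime := ⟨hF⟩
  have h1 : k ≤ m + 1 := by
    by_contra h
    have h2 : m + 1 - k = 0 := by omega
    rw [h2] at hkm
    omega
  have h2 : 2 ≤ m := by
    by_contra h
    have h3 : m + 1 - k = 0 := by omega
    rw [h3] at hkm
    omega
  have D : Dat m k (2 ^ 2 ^ m + 1) := ⟨hk, h1, h2, rfl⟩
  convert periods D hkm hζ ψ hψ

end Pool.Agent.Results.MP_37e5fa_nt.GaussPeriods
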