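import Pool.Agent.L0h40.MS.Log

/-!
# Pépin's test in all the bases `2 ^ s ± 1`, `s` even

Pépin's theorem says that the Fermat number `F_m = 2 ^ (2 ^ m) + 1` is prime if and only if
`3 ^ ((F_m - 1) / 2) ≡ -1` modulo `F_m`, and the base `3 = F_0` may be replaced by `5 = F_1`. Here the
other Fermat numbers are used as bases: for `1 ≤ n`, `2 ^ n ≤ m`, the number `F_m` is prime if and only
if

  `F_n ^ ((F_m - 1) / 2 ^ (2 ^ n - 1)) ≡ -1` modulo `F_m`,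

so that `F_n` is a `2 ^ (2 ^ n - 2)`-th power, but not a `2 ^ (2 ^ n - 1)`-th power, modulo every Fermat
prime `F_m` with `m ≥ 2 ^ n`. The same is true for all the numbers `2 ^ s ± 1`, where `s` is even and
`n` is the `2`-adic valuation of `s`.

Moreover, if `F_m` is prime, the `2 ^ (m - 1)`-th power residue symbols are determined:
`F_n ^ ((F_m - 1) / 2 ^ (m - 1)) ≡ 2 ^ (- log F_n)` modulo `F_m` for all `1 ≤ n < m`, where `log` is the
`2`-adic logarithm modulo `2 ^ (m + 1)` (the order of `2` modulo `F_m` is `2 ^ (m + 1)`), and similarly for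
all the numbers `2 ^ s ± 1` with `s` even.

The proof writes `2 ^ s - 1`, `s = 2 ^ n t`, modulo `F_m` as the product of the `2 ^ n` numbers
`1 - 2 ^ (t + i 2 ^ (m + 1 - n))`, applies the formula of the starting result `MersenneIndex` to
them (it is about odd exponents), and evaluates the sum of the `2`-adic series modulo `2 ^ (m + 1)`.
-/

set_option autoImplicit false

namespace Pool.Agent.Results.MP_37e5fa_nt.PepinTwoPowers

open Finset

/-- `E ≡ x` modulo `2 ^ M` in the ring of the rational numbers with odd denominator. -/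
def Cong (M : ℕ) (E : ℕ) (x : ℚ) : Prop :=
  ∃ d n : ℤ, Odd d ∧ (d : ℚ) * ((E : ℚ) - x) = 2 ^ M * n

/-- The sign `+1` if the least residue of `k / t` modulo `2 ^ (m + 1)` is less than `2 ^ m`, and `-1`
otherwise. -/
def sgn (m t k : ℕ) : ℤ :=
  if ((k : ZMod (2 ^ (m + 1))) * (t : ZMod (2 ^ (m + 1)))⁻¹).val < 2 ^ m then 1 else -1

/-- The series `∑ ± 2 ^ (2 ^ n l) / l`, truncated (the other terms are divisible by
`2 ^ (m + 1)`). -/
noncomputable def series (m n t : ℕ) : ℚ :=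
  ∑ l ∈ Icc 1 (2 * m + 4), (sgn m t (2 ^ n * l) : ℚ) * (2 ^ (2 ^ n * l) / l)

/-- The `2`-adic logarithm `∑ (-1) ^ (l + 1) 2 ^ (2 ^ n l) / l` of `F_n = 1 + 2 ^ (2 ^ n)`, truncated (the
other terms are divisible by `2 ^ (m + 1)`). -/
noncomputable def logF (m n : ℕ) : ℚ :=
  ∑ l ∈ Icc 1 (2 * m + 4), (-1 : ℚ) ^ (l + 1) * 2 ^ (2 ^ n * l) / l

theorem result (m : ℕ) (hm : 4 ≤ m) :
    -- the test in the bases `2 ^ s ± 1`, `s = 2 ^ n t`
    (∀ n t : ℕ, 1 ≤ n → 2 ^ n ≤ m → Odd t →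
      ((Nat.fermatNumber m).Prime ↔ ((2 : ZMod (Nat.fermatNumber m)) ^ (2 ^ n * t) + 1) ^
        (2 ^ (2 ^ m - 2 ^ n + 1)) = -1) ∧
      ((Nat.fermatNumber m).Prime ↔ ((2 : ZMod (Nat.fermatNumber m)) ^ (2 ^ n * t) - 1) ^
        (2 ^ (2 ^ m - 2 ^ n + 1)) = -1)) ∧
    -- in particular in the bases `F_n`
    (∀ n : ℕ, 1 ≤ n → 2 ^ n ≤ m →
      ((Nat.fermatNumber m).Prime ↔
        (Nat.fermatNumber n : ZMod (Nat.fermatNumber m)) ^ (2 ^ (2 ^ m - 2 ^ n + 1)) = -1)) ∧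
    -- the power residue symbols modulo a Fermat prime
    ((Nat.fermatNumber m).Prime → ∀ n : ℕ, 1 ≤ n → n < m →
      (∀ t : ℕ, Odd t → (∃ E : ℕ, Cong (m + 1) E (t * series m n t)) ∧
        ∀ E : ℕ, Cong (m + 1) E (t * series m n t) →
          ((2 : ZMod (Nat.fermatNumber m)) ^ (2 ^ n * t) - 1) ^ (2 ^ (2 ^ m - m + 1)) = 2 ^ E) ∧
      ((∃ E : ℕ, Cong (m + 1) E (-logF m n)) ∧ ∀ E : ℕ, Cong (m + 1) E (-logF m n) →
          (Nat.fermatNumber n : ZMod (Nat.fermatNumber m)) ^ (2 ^ (2 ^ m - m + 1)) = 2 ^ E) ∧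
      (m < 2 ^ n → ∀ t : ℕ, Odd t →
        ((2 : ZMod (Nat.fermatNumber m)) ^ (2 ^ n * t) + 1) ^ (2 ^ (2 ^ m - m + 1)) = 1 ∧
        ((2 : ZMod (Nat.fermatNumber m)) ^ (2 ^ n * t) - 1) ^ (2 ^ (2 ^ m - m + 1)) = 1)) := by
  have hlt := Pool.Agent.L0h40.MS.lt_pow m hm
  have hshift : ∀ n t : ℕ, n < m → Odd t → Odd (t + 2 ^ (m - n)) := fun n t hn ht =>
    ht.add_even ((even_two).pow_of_ne_zero (by omega))
  have test : ∀ n t : ℕ, 1 ≤ n → 2 ^ n ≤ m → Odd t →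
      ((Nat.fermatNumber m).Prime ↔ ((2 : ZMod (Nat.fermatNumber m)) ^ (2 ^ n * t) + 1) ^
        (2 ^ (2 ^ m - 2 ^ n + 1)) = -1) ∧
      ((Nat.fermatNumber m).Prime ↔ ((2 : ZMod (Nat.fermatNumber m)) ^ (2 ^ n * t) - 1) ^
        (2 ^ (2 ^ m - 2 ^ n + 1)) = -1) := by
    intro n t hn1 hnm ht
    have hn : n < m := lt_of_lt_of_le Nat.lt_two_pow_self hnm
    refine ⟨⟨fun hF => ?_, fun h => Pool.Agent.L0h40.MS.prime_of _ h (by omega)⟩,
      ⟨fun hF => Pool.Agent.L0h40.MS.minus_pow hm ht hn1 hnm hF,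
        fun h => Pool.Agent.L0h40.MS.prime_of _ h (by omega)⟩⟩
    rw [Pool.Agent.L0h40.MS.plus_pow hn (by omega)]
    exact Pool.Agent.L0h40.MS.minus_pow hm (hshift n t hn ht) hn1 hnm hF
  refine ⟨test, fun n hn1 hnm => ?_, fun hF n hn1 hn => ⟨fun t ht => ⟨?_, fun E hE => ?_⟩, ⟨?_,
    fun E hE => ?_⟩, fun hmn t ht => ⟨?_, ?_⟩⟩⟩
  · have := (test n 1 hn1 hnm odd_one).1
    rw [mul_one] at this
    rw [this]
    unfold Nat.fermatNumber
    push_cast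
    rfl
  · obtain ⟨E, hE⟩ := Pool.Agent.L0h40.MS.exists_res (m + 1)
      ((t : ℚ) * Pool.Agent.L0h40.MS.Ser m n t)
      (by
        have := (Pool.Agent.L0h40.MS.Ser_int m n t).int_mul t
        push_cast at this
        exact this)
    exact ⟨E, hE⟩
  · exact Pool.Agent.L0h40.MS.index_formula hm ht hn1 hn hE hF
  · obtain ⟨E, hE⟩ := Pool.Agent.L0h40.MS.exists_res (m + 1) (-Pool.Agent.L0h40.MS.Lg m n)
      (Pool.Agent.L0h40.MS.Lg_int m n).neg
    exact ⟨E, hE⟩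
  · refine Pool.Agent.L0h40.MS.fermat_pow hm hn1 hn ?_ hF
    obtain ⟨d, c, hd, h⟩ := hE
    refine ⟨d, c, hd, ?_⟩
    rw [← h, sub_neg_eq_add]
    rfl
  · rw [Pool.Agent.L0h40.MS.plus_pow hn (by omega)]
    exact Pool.Agent.L0h40.MS.minus_one hm (hshift n t hn ht) hn1 hn hmn hF
  · exact Pool.Agent.L0h40.MS.minus_one hm ht hn1 hn hmn hF

end Pool.Agent.Results.MP_37e5fa_nt.PepinTwoPowers
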